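import Mathlib

/-!
# TOWERS, T4: integral matrices of determinant one are Zariski dense in `SL_m`
-/

set_option autoImplicit false

namespace Pool.Agent.Helper57.TW

open MvPolynomial Matrix

universe u

section ring

variable {K : Type*} {A : Type*} [Field K] [Ring A] [Algebra K A]

theorem torus_word {E E' : A} (h1 : E * E = 0) (h2 : E' * E' = 0) (h3 : E * E' * E = E)
    (h4 : E' * E * E' = E') {t : K} (ht : t ≠ 0) :
    (1 + t • E) * (1 + (-t⁻¹) • E') * (1 + t • E) *
      ((1 + (-1 : K) • E) * (1 + (1 : K) • E') * (1 + (-1 : K) • E)) =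
      1 + (t - 1) • (E * E') + (t⁻¹ - 1) • (E' * E) := by
  have hw : ∀ s : K, s ≠ 0 → (1 + s • E) * (1 + (-s⁻¹) • E') * (1 + s • E) =
      1 - E * E' - E' * E + s • E - s⁻¹ • E' := by
    intro s hs
    have e1 : (1 + s • E) * (1 + (-s⁻¹) • E') = 1 + s • E - s⁻¹ • E' - E * E' := by
      simp only [mul_add, add_mul, mul_one, one_mul, smul_mul_assoc, mul_smul_comm, smul_smul,
        smul_add]
      rw [neg_mul, inv_mul_cancel₀ hs]
      module
    rw [e1]
    simp only [mul_add, sub_mul, add_mul, mul_one, one_mul, smul_mul_assoc, mul_smul_comm,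
      smul_smul, smul_add, smul_sub, h1, h3, smul_zero]
    rw [mul_inv_cancel₀ hs]
    module
  have h5 := hw t ht
  have h6 := hw (-1) (by norm_num)
  rw [show (-(-1 : K)⁻¹) = 1 by norm_num, show ((-1 : K)⁻¹) = -1 by norm_num] at h6
  rw [h5, h6]
  have a1 : E * E' * E' = 0 := by rw [mul_assoc, h2, mul_zero]
  have a2 : E' * E * E = 0 := by rw [mul_assoc, h1, mul_zero]
  have a3 : E * (E * E') = 0 := by rw [← mul_assoc, h1, zero_mul]
  have a4 : E' * (E' * E) = 0 := by rw [← mul_assoc, h2, zero_mul]
  have a5 : E * E' * (E * E') = E * E' := by rw [← mul_assoc, h3]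
  have a6 : E' * E * (E' * E) = E' * E := by rw [← mul_assoc, h4]
  have a7 : E * E' * (E' * E) = 0 := by rw [← mul_assoc, a1, zero_mul]
  have a8 : E' * E * (E * E') = 0 := by rw [← mul_assoc, a2, zero_mul]
  have a9 : E * (E' * E) = E := by rw [← mul_assoc, h3]
  have a10 : E' * (E * E') = E' := by rw [← mul_assoc, h4]
  simp only [mul_add, mul_sub, sub_mul, add_mul, mul_one, one_mul, smul_mul_assoc, mul_smul_comm,
      smul_smul, smul_add, smul_sub, h1, h2, h3, h4, a1, a2, a3, a4, a5, a6, a7, a8, a9, a10,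
      smul_zero]
  module

end ring

section dense

variable {Ω : Type u} [Field Ω] [CharZero Ω] {m : ℕ}

/-- the Zariski closure of the integral matrices of determinant one -/
def Cl (Ω : Type u) [Field Ω] (m : ℕ) : Set (Matrix (Fin m) (Fin m) Ω) :=
  {M | ∀ F : MvPolynomial (Fin m × Fin m) Ω,
    (∀ w : Matrix (Fin m) (Fin m) ℤ, w.det = 1 →
      eval (fun p => ((w p.1 p.2 : ℤ) : Ω)) F = 0) →
    eval (fun p => M p.1 p.2) F = 0}

theorem int_mem {w : Matrix (Fin m) (Fin m) ℤ} (hw : w.det = 1) :
    w.map (Int.cast : ℤ → Ω) ∈ Cl Ω m := fun _ hF => hF w hw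

/-- substitution of a product with a fixed matrix on the left -/
theorem eval_mul_left (M X' : Matrix (Fin m) (Fin m) Ω) (F : MvPolynomial (Fin m × Fin m) Ω) :
    eval (fun p => X' p.1 p.2)
      (bind₁ (fun p : Fin m × Fin m => ∑ k, C (M p.1 k) * X (k, p.2)) F) =
      eval (fun p => (M * X') p.1 p.2) F := by
  refine (eval₂Hom_bind₁ (RingHom.id _) _ _ _).trans ?_
  refine congrArg (fun f => eval f F) ?_
  funext p
  simp [Matrix.mul_apply]

theorem eval_mul_right (M X' : Matrix (Fin m) (Fin m) Ω) (F : MvPolynomial (Fin m × Fin m) Ω) :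
    eval (fun p => X' p.1 p.2)
      (bind₁ (fun p : Fin m × Fin m => ∑ k, X (p.1, k) * C (M k p.2)) F) =
      eval (fun p => (X' * M) p.1 p.2) F := by
  refine (eval₂Hom_bind₁ (RingHom.id _) _ _ _).trans ?_
  refine congrArg (fun f => eval f F) ?_
  funext p
  simp [Matrix.mul_apply]

theorem mul_mem {M N : Matrix (Fin m) (Fin m) Ω} (hM : M ∈ Cl Ω m) (hN : N ∈ Cl Ω m) :
    M * N ∈ Cl Ω m := by
  intro F hF
  -- first: `F (w N) = 0` for integral `w`
  have h1 : ∀ w : Matrix (Fin m) (Fin m) ℤ, w.det = 1 →
      eval (fun p => (w.map (Int.cast : ℤ → Ω) * N) p.1 p.2) F = 0 := by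
    intro w hw
    rw [← eval_mul_left]
    refine hN _ fun v hv => ?_
    have h2 := eval_mul_left (w.map (Int.cast : ℤ → Ω)) (v.map (Int.cast : ℤ → Ω)) F
    refine h2.trans ?_
    have h3 := hF (w * v) (by rw [det_mul, hw, hv, one_mul])
    rw [← h3]
    refine congrArg (fun f => eval f F) ?_
    funext p
    simp [Matrix.mul_apply]
  rw [← eval_mul_right]
  refine hM _ fun v hv => ?_
  have h2 := eval_mul_right N (v.map (Int.cast : ℤ → Ω)) F
  exact h2.trans (h1 v hv)

theorem one_mem : (1 : Matrix (Fin m) (Fin m) Ω) ∈ Cl Ω m := by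
  have h := int_mem (Ω := Ω) (m := m) (w := 1) det_one
  have h2 : (1 : Matrix (Fin m) (Fin m) ℤ).map (Int.cast : ℤ → Ω) = 1 :=
    Matrix.map_one _ Int.cast_zero Int.cast_one
  rwa [h2] at h

theorem transv_mem {i j : Fin m} (hij : i ≠ j) (c : Ω) : transvection i j c ∈ Cl Ω m := by
  intro F hF
  let P : Polynomial Ω := aeval (fun p : Fin m × Fin m =>
    Polynomial.C ((1 : Matrix (Fin m) (Fin m) Ω) p.1 p.2) +
      Polynomial.X * Polynomial.C ((single i j (1 : Ω)) p.1 p.2)) F
  have hP : ∀ t : Ω, P.eval t = eval (fun p => (transvection i j t) p.1 p.2) F := by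
    intro t
    simp only [P]
    rw [← Polynomial.coe_evalRingHom, MvPolynomial.aeval_def, MvPolynomial.hom_eval₂]
    rw [MvPolynomial.eval, coe_eval₂Hom]
    congr 1
    · ext x; simp
    · ext p
      by_cases h : i = p.1 ∧ j = p.2 <;> simp [transvection, single_apply, h]
  have hZ : P = 0 := by
    refine Polynomial.eq_zero_of_infinite_isRoot P ?_
    refine Set.Infinite.mono ?_ (Set.infinite_range_of_injective
      (fun a b h => Int.cast_injective h : Function.Injective (Int.cast : ℤ → Ω)))
    rintro _ ⟨n, rfl⟩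
    change P.eval _ = 0
    rw [hP]
    have h1 := hF (transvection i j n) (det_transvection_of_ne i j hij n)
    rw [← h1]
    refine congrArg (fun f => eval f F) ?_
    funext p
    simp only [transvection, Matrix.add_apply, single_apply, Int.cast_add]
    congr 1
    · by_cases h : p.1 = p.2 <;> simp [one_apply, h]
    · split_ifs <;> simp
  rw [← hP, hZ, Polynomial.eval_zero]

theorem torus_mem {i j : Fin m} (hij : i ≠ j) {t : Ω} (ht : t ≠ 0) :
    diagonal (fun k => if k = i then t else if k = j then t⁻¹ else 1) ∈ Cl Ω m := by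
  have h1 : single i j (1 : Ω) * single i j (1 : Ω) = 0 :=
    single_mul_single_of_ne _ _ _ _ hij.symm _
  have h2 : single j i (1 : Ω) * single j i (1 : Ω) = 0 :=
    single_mul_single_of_ne _ _ _ _ hij _
  have h3 : single i j (1 : Ω) * single j i (1 : Ω) * single i j (1 : Ω) = single i j (1 : Ω) := by
    rw [single_mul_single_same, single_mul_single_same]; simp
  have h4 : single j i (1 : Ω) * single i j (1 : Ω) * single j i (1 : Ω) = single j i (1 : Ω) := by
    rw [single_mul_single_same, single_mul_single_same]; simp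
  have h5 := torus_word h1 h2 h3 h4 ht
  have h6 : ∀ (a b : Fin m) (c : Ω), 1 + c • single a b (1 : Ω) = transvection a b c := by
    intro a b c
    rw [transvection, smul_single, smul_eq_mul, mul_one]
  have h7 : diagonal (fun k => if k = i then t else if k = j then t⁻¹ else 1) =
      1 + (t - 1) • (single i j (1 : Ω) * single j i (1 : Ω)) +
        (t⁻¹ - 1) • (single j i (1 : Ω) * single i j (1 : Ω)) := by
    rw [single_mul_single_same, single_mul_single_same]
    ext a b
    simp only [diagonal_apply, Matrix.add_apply, one_apply, Matrix.smul_apply, single_apply,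
      mul_one, smul_eq_mul]
    by_cases hab : a = b
    · subst hab
      by_cases hai : a = i
      · subst hai
        simp [hij.symm, hij]
      · by_cases haj : a = j
        · subst haj; simp [hij, hai]
        · simp [hai, haj, Ne.symm hai, Ne.symm haj]
    · have h8 : ¬ (i = a ∧ i = b) := fun h => hab (h.1.symm.trans h.2)
      have h9 : ¬ (j = a ∧ j = b) := fun h => hab (h.1.symm.trans h.2)
      simp [hab, h8, h9]
  rw [h7, ← h5, h6, h6, h6, h6]
  exact mul_mem (mul_mem (mul_mem (transv_mem hij _) (transv_mem hij.symm _)) (transv_mem hij _))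
    (mul_mem (mul_mem (transv_mem hij _) (transv_mem hij.symm _)) (transv_mem hij _))

theorem diagonal_mem (D : Fin m → Ω) (hD : ∏ k, D k = 1) : diagonal D ∈ Cl Ω m := by
  rcases m with _ | m
  · have : diagonal D = 1 := Subsingleton.elim _ _
    rw [this]; exact one_mem
  have hne : ∀ k, D k ≠ 0 := by
    intro k hk
    have : ∏ k, D k = 0 := Finset.prod_eq_zero (Finset.mem_univ k) hk
    rw [hD] at this
    exact one_ne_zero this
  -- multiply by the torus elements one by one
  have key : ∀ s : Finset (Fin m),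
      diagonal (Fin.cons (∏ k ∈ s, (D k.succ)⁻¹) fun k : Fin m => if k ∈ s then D k.succ else 1 :
        Fin (m + 1) → Ω) ∈ Cl Ω (m + 1) := by
    intro s
    induction s using Finset.induction_on with
    | empty =>
      have : (diagonal (Fin.cons (∏ k ∈ (∅ : Finset (Fin m)), (D k.succ)⁻¹)
          fun k : Fin m => if k ∈ (∅ : Finset (Fin m)) then D k.succ else 1 : Fin (m + 1) → Ω)) =
          (1 : Matrix (Fin (m + 1)) (Fin (m + 1)) Ω) := by
        rw [← diagonal_one]
        congr 1
        ext k
        refine Fin.cases ?_ (fun k => ?_) k <;> simp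
      rw [this]; exact one_mem
    | insert a s ha ih =>
      have h1 := mul_mem ih (torus_mem (Fin.succ_ne_zero a) (hne a.succ))
      rw [diagonal_mul_diagonal] at h1
      convert h1 using 2
      ext k
      refine Fin.cases ?_ (fun k => ?_) k
      · rw [Fin.cons_zero, Fin.cons_zero, Finset.prod_insert ha, if_neg (Fin.succ_ne_zero a).symm,
          if_pos rfl, mul_comm]
      · rw [Fin.cons_succ, Fin.cons_succ]
        by_cases hk : k = a
        · subst hk
          rw [if_pos (Finset.mem_insert_self _ _), if_neg ha, if_pos rfl, one_mul]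
        · rw [if_neg (fun h => hk (Fin.succ_injective _ h)), if_neg (Fin.succ_ne_zero k), mul_one]
          simp [Finset.mem_insert, hk]
  have h2 := key Finset.univ
  convert h2 using 2
  ext k
  refine Fin.cases ?_ (fun k => ?_) k
  · rw [Fin.cons_zero, Finset.prod_inv_distrib]
    rw [Fin.prod_univ_succ] at hD
    exact eq_inv_of_mul_eq_one_left hD
  · simp

/-- **T4** -/
theorem mem_cl {u : Matrix (Fin m) (Fin m) Ω} (hu : u.det = 1) : u ∈ Cl Ω m := by
  obtain ⟨L, L', D, hD⟩ := Pivot.exists_list_transvec_mul_diagonal_mul_list_transvec u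
  have hL : ∀ L : List (TransvectionStruct (Fin m) Ω),
      (L.map TransvectionStruct.toMatrix).prod ∈ Cl Ω m := by
    intro L
    induction L with
    | nil => simpa using one_mem
    | cons a L ih =>
      rw [List.map_cons, List.prod_cons]
      refine mul_mem ?_ ih
      exact transv_mem a.hij a.c
  have hdet : ∏ k, D k = 1 := by
    rw [hD, det_mul, det_mul, TransvectionStruct.det_toMatrix_prod,
      TransvectionStruct.det_toMatrix_prod, det_diagonal, one_mul, mul_one] at hu
    exact hu
  rw [hD]
  exact mul_mem (mul_mem (hL L) (diagonal_mem D hdet)) (hL L')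

/-- **T4** -/
theorem sl_dense (F : MvPolynomial (Fin m × Fin m) Ω) (u : Matrix (Fin m) (Fin m) Ω)
    (hu : u.det = 1) (h : eval (fun p => u p.1 p.2) F ≠ 0) :
    ∃ w : Matrix (Fin m) (Fin m) ℤ, w.det = 1 ∧
      eval (fun p => ((w p.1 p.2 : ℤ) : Ω)) F ≠ 0 := by
  by_contra hne
  push Not at hne
  exact h (mem_cl hu F hne)

end dense

end Pool.Agent.Helper57.TW
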